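import Mathlib
import Pool.Agent.H.MP_77d395_lc.A

set_option autoImplicit false

namespace Pool.Agent.Results.MP_77d395_lc.Yes

open Set Filter Function Cardinal Pool.Agent.H.MP_77d395_lc

open Classical in
theorem result (CH : continuum.{0} = ℵ₁) :
    ∃ (Y : Type) (ι : ℕ → Y) (star : (ℕ → ℕ) → Y → Y),
      Injective ι ∧ ¬ Surjective ι ∧ (∀ f n, star f (ι n) = ι (f n)) ∧
      (∀ f g, star (g ∘ f) = star g ∘ star f) ∧
      (∀ f g ξ, star (fun n => if f n = g n then 1 else 0) ξ =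
        if star f ξ = star g ξ then ι 1 else ι 0) ∧
      (∀ ξ η, ∃ p₁ p₂ ζ, star p₁ ζ = ξ ∧ star p₂ ζ = η) ∧
      ∃ τ : TopologicalSpace Y, TopologicalSpace.IsTopologicalBasis
          {S | ∃ A : Set ℕ, S = {ξ | star (fun n => if n ∈ A then 1 else 0) ξ = ι 1}} ∧
        T2Space Y ∧ ∀ U : ℕ → Set Y, (∀ n, IsOpen (U n)) → ⋃ n, U n = Set.univ →
          ∃ F : Finset ℕ, ⋃ n ∈ F, U n = Set.univ := by
  obtain ⟨Y, y1, y2, y3, y4, y5⟩ := main CH
  obtain ⟨W, w1, w2⟩ := np y1 y5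
  have k : ∀ (U : Ultrafilter ℕ) (f : ℕ → ℕ) c, U.map f = pure c ↔ {n | f n = c} ∈ U :=
    fun U f c => ⟨fun h => (h.symm ▸ rfl : {c} ∈ U.map f), fun h => Ultrafilter.eq_of_le
      (le_pure_iff.2 h)⟩
  refine ⟨Y, fun n => ⟨_, y1 n⟩, fun f U => ⟨_, y2 f _ U.2⟩, fun a b h =>
    Ultrafilter.pure_injective (congrArg Subtype.val h), fun h => ?_, fun f n => rfl,
    fun f g => rfl, fun f g U => ?_, fun U V => ?_, inferInstance, ?_, inferInstance,
    fun U h1 h2 => ?_⟩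
  · obtain ⟨n, h⟩ := h ⟨W, w1⟩
    exact w2 n (congrArg Subtype.val h)
  · split_ifs with h
    · exact Subtype.ext ((k _ _ _).2 (mem_of_superset (y3 _ U.2 f g (congrArg Subtype.val h))
        fun n h => if_pos h))
    · refine Subtype.ext ((k _ _ _).2 (mem_of_superset ((Ultrafilter.compl_mem_iff_notMem
        (s := {n | f n = g n})).2 fun c => h (Subtype.ext (Ultrafilter.coe_injective ?_)))
        fun n h => if_neg h))
      exact map_congr c
  · obtain ⟨Z, z1, z2, z3⟩ := y4 _ U.2 _ V.2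
    exact ⟨_, _, ⟨Z, z1⟩, Subtype.ext z2, Subtype.ext z3⟩
  · convert ultrafilterBasis_is_basis.isInducing (f := (Subtype.val : Y → _)) ⟨rfl⟩ using 1
    have : ∀ A : Set ℕ, {ξ : Y | (⟨_, y2 (fun n => if n ∈ A then 1 else 0) _ ξ.2⟩ : Y) =
        ⟨_, y1 1⟩} = Subtype.val ⁻¹' {u | A ∈ u} := fun A => Set.ext fun U => by
      simp [k]
    simp only [this, ultrafilterBasis, ← range_comp]
    exact Set.ext fun S => exists_congr fun A => eq_comm
  · obtain ⟨F, h⟩ := (cc y5).isCountablyCompact_univ.elim_finite_subcover h1 h2.ge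
    exact ⟨F, univ_subset_iff.1 h⟩

end Pool.Agent.Results.MP_77d395_lc.Yes
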